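import Pool.Agent.LPR.Stmts

/-! # LPR row HAT: a partition in the scale -/

set_option autoImplicit false

open Set Topology

namespace Pool.Agent.LPR.H59

open Pool.Agent.LSG Pool.Agent.LPR

/-- a tent with the feet `1 / 2` and `2` and the top `1` -/
noncomputable def U (x : ℝ) : ℝ := max 0 (min (2 * x - 1) (2 - x))

theorem U_nonneg (x : ℝ) : 0 ≤ U x := le_max_left _ _

theorem U_le_one (x : ℝ) : U x ≤ 1 := by
  unfold U
  refine max_le zero_le_one ?_
  rcases le_total x 1 with h | h
  · exact (min_le_left _ _).trans (by linarith)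
  · exact (min_le_right _ _).trans (by linarith)

theorem U_ne (x : ℝ) (h : U x ≠ 0) : 1 / 2 < x ∧ x < 2 := by
  unfold U at h
  have h1 : 0 < min (2 * x - 1) (2 - x) := by
    by_contra hh
    exact h (max_eq_left (not_lt.1 hh))
  rw [lt_min_iff] at h1
  constructor <;> linarith [h1.1, h1.2]

theorem U_cont : Continuous U := by
  unfold U
  fun_prop

theorem hat : HatStmt := by
  refine ⟨fun m => ⟨fun r => Real.sqrt (U (2 ^ m * r)),
    Real.continuous_sqrt.comp (U_cont.comp (continuous_const.mul continuous_id))⟩, ?_, ?_, ?_⟩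
  · intro m r
    refine ⟨Real.sqrt_nonneg _, ?_⟩
    show Real.sqrt (U (2 ^ m * r)) ≤ 1
    rw [Real.sqrt_le_left zero_le_one, one_pow]
    exact U_le_one _
  · intro m r h
    have h0 : U (2 ^ m * r) ≠ 0 := by
      intro h1
      apply h
      show Real.sqrt (U (2 ^ m * r)) = 0
      rw [h1, Real.sqrt_zero]
    obtain ⟨h1, h2⟩ := U_ne _ h0
    have h3 : (0 : ℝ) < (1 / 2 : ℝ) ^ m := by positivity
    have h4 : (1 / 2 : ℝ) ^ m * 2 ^ m = 1 := by
      rw [← mul_pow]
      norm_num
    constructor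
    · have := mul_lt_mul_of_pos_left h1 h3
      rw [← mul_assoc, h4, one_mul] at this
      rw [pow_succ]
      exact this
    · have := mul_lt_mul_of_pos_left h2 h3
      rw [← mul_assoc, h4, one_mul] at this
      linarith
  · intro r hr hr1
    obtain ⟨j, hj1, hj2⟩ := exists_nat_pow_near_of_lt_one hr hr1
      (show (0 : ℝ) < 1 / 2 by norm_num) (show (1 / 2 : ℝ) < 1 by norm_num)
    have h4 : (2 : ℝ) ^ j * (1 / 2 : ℝ) ^ j = 1 := by
      rw [← mul_pow]
      norm_num
    have h2j : (0 : ℝ) < 2 ^ j := by positivity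
    have hx1 : 1 / 2 < 2 ^ j * r := by
      have := mul_lt_mul_of_pos_left hj1 h2j
      rw [pow_succ, ← mul_assoc, h4, one_mul] at this
      exact this
    have hx2 : 2 ^ j * r ≤ 1 := by
      have := mul_le_mul_of_nonneg_left hj2 h2j.le
      rw [h4] at this
      exact this
    refine ⟨j, ?_, ?_⟩
    · intro m h
      have h0 : U (2 ^ m * r) ≠ 0 := by
        intro h1
        apply h
        show Real.sqrt (U (2 ^ m * r)) = 0
        rw [h1, Real.sqrt_zero]
      obtain ⟨h1, h2⟩ := U_ne _ h0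
      by_contra hne
      rw [not_or] at hne
      rcases lt_or_ge m j with hm | hm
      · have h5 : (2 : ℝ) ^ (m + 1) ≤ 2 ^ j := pow_le_pow_right₀ (by norm_num) hm
        have h6 : (2 : ℝ) ^ (m + 1) * r ≤ 2 ^ j * r := mul_le_mul_of_nonneg_right h5 hr.le
        rw [pow_succ] at h6
        nlinarith
      · have hm2 : j + 2 ≤ m := by omega
        have h5 : (2 : ℝ) ^ (j + 2) ≤ 2 ^ m := pow_le_pow_right₀ (by norm_num) hm2
        have h6 : (2 : ℝ) ^ (j + 2) * r ≤ 2 ^ m * r := mul_le_mul_of_nonneg_right h5 hr.le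
        have h7 : (2 : ℝ) ^ (j + 2) * r = 4 * (2 ^ j * r) := by
          rw [pow_add]
          ring
        rw [h7] at h6
        linarith
    · show Real.sqrt (U (2 ^ j * r)) ^ 2 + Real.sqrt (U (2 ^ (j + 1) * r)) ^ 2 = 1
      rw [Real.sq_sqrt (U_nonneg _), Real.sq_sqrt (U_nonneg _)]
      have h7 : (2 : ℝ) ^ (j + 1) * r = 2 * (2 ^ j * r) := by
        rw [pow_succ]
        ring
      rw [h7]
      generalize 2 ^ j * r = x at hx1 hx2
      unfold U
      rw [min_eq_left (show 2 * x - 1 ≤ 2 - x by linarith),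
        min_eq_right (show 2 - 2 * x ≤ 2 * (2 * x) - 1 by linarith),
        max_eq_right (show 0 ≤ 2 * x - 1 by linarith),
        max_eq_right (show 0 ≤ 2 - 2 * x by linarith)]
      ring

end Pool.Agent.LPR.H59
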